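import Mathlib
import Pool.Agent.Y268.D3.Stm

/-!
Limits of means along ultrafilters, real and conjugate means.
-/

set_option autoImplicit false

open scoped ComplexOrder InnerProductSpace ComplexConjugate Topology
open Finset Filter

noncomputable section

namespace Pool.Agent.Y363.D3

open Y268.D3

/-- bounded functions -/
def bdd (S : Type) : Submodule ℂ (S → ℂ) where
  carrier := {f | ∃ C : ℝ, ∀ s, ‖f s‖ ≤ C}
  add_mem' := by
    rintro f g ⟨C, hC⟩ ⟨C', hC'⟩
    exact ⟨C + C', fun s => (norm_add_le _ _).trans (add_le_add (hC s) (hC' s))⟩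
  zero_mem' := ⟨0, fun s => by simp⟩
  smul_mem' := by
    rintro c f ⟨C, hC⟩
    refine ⟨‖c‖ * C, fun s => ?_⟩
    rw [Pi.smul_apply, norm_smul]
    exact mul_le_mul_of_nonneg_left (hC s) (norm_nonneg c)

theorem mem_bdd {S : Type} {f : S → ℂ} : f ∈ bdd S ↔ ∃ C : ℝ, ∀ s, ‖f s‖ ≤ C := Iff.rfl

theorem prove_mkmean : S_mkmean := by
  intro S M U a
  have hex : ∀ f : bdd S, ∃ z : ℂ, Tendsto (fun m => (a m).E f.1) (U : Filter M) (𝓝 z) := by
    rintro ⟨f, C, hC⟩
    obtain ⟨z, -, hz⟩ := (isCompact_closedBall (0 : ℂ) C).ultrafilter_le_nhds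
      (U.map fun m => (a m).E f) (by
        rw [Ultrafilter.coe_map, le_principal_iff, Filter.mem_map]
        refine Filter.mem_of_superset Filter.univ_mem fun m _ => ?_
        rw [Set.mem_preimage, mem_closedBall_zero_iff]
        exact (a m).bd f C hC)
    exact ⟨z, hz⟩
  choose z hz using hex
  let L : bdd S →ₗ[ℂ] ℂ :=
    { toFun := z
      map_add' := fun f g => by
        have h := (hz f).add (hz g)
        refine tendsto_nhds_unique (hz (f + g)) (h.congr fun m => ?_)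
        exact (map_add (a m).E f.1 g.1).symm
      map_smul' := fun c f => by
        have h := (hz f).const_mul c
        refine tendsto_nhds_unique (hz (c • f)) (h.congr fun m => ?_)
        exact (map_smul (a m).E c f.1).symm }
  obtain ⟨E, hE⟩ := LinearMap.exists_extend L
  have hE' : ∀ f : bdd S, E f.1 = z f := fun f => by
    have := LinearMap.congr_fun hE f
    exact this
  refine ⟨⟨E, ?_, ?_⟩, ?_⟩
  · have h1 : (fun _ : S => (1 : ℂ)) ∈ bdd S := ⟨1, fun s => by simp⟩
    rw [hE' ⟨_, h1⟩]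
    refine tendsto_nhds_unique (hz ⟨_, h1⟩) ?_
    refine (tendsto_const_nhds (x := (1 : ℂ))).congr fun m => ?_
    exact (a m).one.symm
  · intro f C hf
    rw [hE' ⟨f, C, hf⟩]
    exact le_of_tendsto (hz ⟨f, C, hf⟩).norm (Eventually.of_forall fun m => (a m).bd f C hf)
  · intro f C hf
    have h := hz ⟨f, C, hf⟩
    rw [← hE' ⟨f, C, hf⟩] at h
    exact h

theorem real_im {S : Type} (E : Mean S) (f : S → ℝ) (C : ℝ) (hf : ∀ s, |f s| ≤ C) :
    (E.E (fun s => (f s : ℂ))).im = 0 := by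
  by_contra hb
  obtain ⟨z, hz⟩ : ∃ z : ℂ, z = E.E (fun s => (f s : ℂ)) := ⟨_, rfl⟩
  rw [← hz] at hb
  have key : ∀ t : ℝ, z.re ^ 2 + (z.im + t) ^ 2 ≤ C ^ 2 + t ^ 2 := by
    intro t
    have h1 : ∀ s, ‖(f s : ℂ) + t * Complex.I‖ ≤ √(C ^ 2 + t ^ 2) := by
      intro s
      apply Real.le_sqrt_of_sq_le
      rw [← Complex.normSq_eq_norm_sq, Complex.normSq_add_mul_I]
      have := sq_le_sq' (neg_le_of_abs_le (hf s)) (le_of_abs_le (hf s))
      linarith
    have h2 := E.bd _ _ h1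
    have h3 : E.E (fun s => (f s : ℂ) + t * Complex.I) = z + t * Complex.I := by
      rw [E.add', E.const, hz]
    rw [h3] at h2
    have h4 : ‖z + t * Complex.I‖ ^ 2 ≤ C ^ 2 + t ^ 2 := by
      have h5 := pow_le_pow_left₀ (norm_nonneg _) h2 2
      rwa [Real.sq_sqrt (by positivity)] at h5
    rw [← Complex.normSq_eq_norm_sq] at h4
    have h5 : Complex.normSq (z + t * Complex.I) = z.re ^ 2 + (z.im + t) ^ 2 := by
      rw [Complex.normSq_apply]
      simp
      ring
    rwa [h5] at h4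
  have h := key ((C ^ 2 + 1) / (2 * z.im))
  have h1 : 2 * z.im * ((C ^ 2 + 1) / (2 * z.im)) = C ^ 2 + 1 := by field_simp
  nlinarith [sq_nonneg z.re, sq_nonneg z.im]

theorem real_nonneg {S : Type} (E : Mean S) (f : S → ℝ) (C : ℝ) (hf : ∀ s, |f s| ≤ C)
    (h0 : ∀ s, 0 ≤ f s) : 0 ≤ (E.E (fun s => (f s : ℂ))).re := by
  have h1 : ∀ s, ‖((C / 2 : ℝ) : ℂ) + (-1) * (f s : ℂ)‖ ≤ C / 2 := by
    intro s
    have e : ((C / 2 : ℝ) : ℂ) + (-1) * (f s : ℂ) = ((C / 2 - f s : ℝ) : ℂ) := by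
      push_cast; ring
    rw [e, Complex.norm_real, Real.norm_eq_abs, abs_le]
    have := le_of_abs_le (hf s)
    have := h0 s
    constructor <;> linarith
  have h2 := E.bd _ _ h1
  rw [E.add' (fun _ => ((C / 2 : ℝ) : ℂ)) (fun s => (-1) * (f s : ℂ)), E.const, E.const_mul] at h2
  have h3 := (Complex.abs_re_le_norm _).trans h2
  have e2 : (((C / 2 : ℝ) : ℂ) + (-1) * E.E (fun s => (f s : ℂ))).re =
      C / 2 - (E.E (fun s => (f s : ℂ))).re := by
    rw [Complex.add_re, Complex.ofReal_re, neg_one_mul, Complex.neg_re]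
    ring
  rw [e2] at h3
  have := le_of_abs_le h3
  linarith

theorem prove_real : S_real := by
  intro S E
  refine ⟨fun f C hf => ⟨real_im E f C hf, real_nonneg E f C hf⟩, fun f C hf => ?_⟩
  have hu : ∀ s, |(f s).re| ≤ C := fun s => (Complex.abs_re_le_norm _).trans (hf s)
  have hv : ∀ s, |(f s).im| ≤ C := fun s => (Complex.abs_im_le_norm _).trans (hf s)
  have iu := real_im E (fun s => (f s).re) C hu
  have iv := real_im E (fun s => (f s).im) C hv
  obtain ⟨p, hp⟩ : ∃ p : ℂ, p = E.E (fun s => (((f s).re : ℝ) : ℂ)) := ⟨_, rfl⟩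
  obtain ⟨q, hq⟩ : ∃ q : ℂ, q = E.E (fun s => (((f s).im : ℝ) : ℂ)) := ⟨_, rfl⟩
  rw [← hp] at iu
  rw [← hq] at iv
  have e1 : E.E f = p + q * Complex.I := by
    rw [hp, hq, ← E.mul_const, ← E.add']
    congr 1
    funext s
    exact (Complex.re_add_im (f s)).symm
  have e2 : E.E (fun s => conj (f s)) = p + q * (-Complex.I) := by
    rw [hp, hq, ← E.mul_const, ← E.add']
    congr 1
    funext s
    apply Complex.ext <;> simp
  have cp : p = ((p.re : ℝ) : ℂ) := by apply Complex.ext <;> simp [iu]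
  have cq : q = ((q.re : ℝ) : ℂ) := by apply Complex.ext <;> simp [iv]
  constructor
  · rw [e2, e1, cp, cq]
    apply Complex.ext <;> simp
  · rw [← hp, e1]
    apply Complex.ext
    · simp [iv]
    · simp [iu]

end Pool.Agent.Y363.D3
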