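import Mathlib
import Pool.Agent.Y268.D3.Stm3

/-! A similarity which makes the homomorphism preserve adjoints on matrix units, and the transfer
of the bilinear bound through it without loss. -/

set_option autoImplicit false

open scoped ComplexOrder InnerProductSpace ComplexConjugate Topology
open Finset Filter

noncomputable section

namespace Pool.Agent.Y363.D3

open H759R2.Kad H759R2.Kad.A25 H711R2.KG H770R2.Kad Pool.Agent.Y784.KS Pool.Agent.Y784.KS.GDec
  Y268.D3

section a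

variable {B : Type} [CStarAlgebra B]
variable {H : Type} [NormedAddCommGroup H] [InnerProductSpace ℂ H] [CompleteSpace H]

/-- The conjugate of a linear map. -/
def cjm (S S' : H →L[ℂ] H) (u : B →ₗ[ℂ] (H →L[ℂ] H)) : B →ₗ[ℂ] (H →L[ℂ] H) where
  toFun b := S * u b * S'
  map_add' a b := by rw [map_add, mul_add, add_mul]
  map_smul' r b := by
    rw [map_smul, mul_smul_comm, smul_mul_assoc]
    rfl

omit [CompleteSpace H] in
theorem cjm_hom {S S' : H →L[ℂ] H} (i1 : S * S' = 1) (i2 : S' * S = 1)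
    {u : B →ₗ[ℂ] (H →L[ℂ] H)} (hu : IsHom u) : IsHom (cjm S S' u) where
  mul a b := by
    change S * u (a * b) * S' = S * u a * S' * (S * u b * S')
    rw [hu.mul]
    calc S * (u a * u b) * S' = S * u a * 1 * u b * S' := by simp only [mul_assoc, mul_one]
      _ = S * u a * (S' * S) * u b * S' := by rw [i2]
      _ = _ := by simp only [mul_assoc]
  one := by
    change S * u 1 * S' = 1
    rw [hu.one, mul_one, i1]

variable {n : ℕ} {z : B} {t : Fin n → B} {i0 : Fin n} {v : B}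

/-- The joint similarity, with the formula for the new norm. -/
theorem sim2 (D : GDec z t i0 v) (u : B →ₗ[ℂ] (H →L[ℂ] H)) (hu : IsHom u) {c : ℝ} (hc : 0 ≤ c)
    (hb : ∀ b, ‖u b‖ ≤ c * ‖b‖) :
    ∃ S S' : H →L[ℂ] H, S * S' = 1 ∧ S' * S = 1 ∧ (∀ b, ‖S * u b * S'‖ ≤ c * ‖b‖) ∧
      (∀ ξ, ‖S ξ‖ ^ 2 =
        (Fintype.card (GI n) : ℝ)⁻¹ * ∑ g : GI n, ‖u (UB z t i0 v g) ξ‖ ^ 2) ∧
      (∀ i, star (S * u (t i) * S') = S * u (star (t i)) * S') ∧
      star (S * u v * S') = S * u (star v) * S' := by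
  have hn1 : ∀ g ∈ unitary B, ‖u g‖ ≤ c := by
    intro g hg
    refine (hb g).trans ?_
    have := mul_le_mul_of_nonneg_left (H294R2.Kad2.norm_le_one_of_unitary hg) hc
    simpa using this
  set U : GI n → (H →L[ℂ] H) := fun g => u (UB z t i0 v g) with hU
  have hUm := D.UB_unitary
  have hinv1 : ∀ g, u (star (UB z t i0 v g)) * U g = 1 := by
    intro g
    change u (star (UB z t i0 v g)) * u (UB z t i0 v g) = 1
    rw [← hu.mul, (Unitary.mem_iff.mp (hUm g)).1, hu.one]
  have hinv2 : ∀ g, U g * u (star (UB z t i0 v g)) = 1 := by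
    intro g
    change u (UB z t i0 v g) * u (star (UB z t i0 v g)) = 1
    rw [← hu.mul, (Unitary.mem_iff.mp (hUm g)).2, hu.one]
  obtain ⟨S, S', i1, i2, hS, hstar⟩ := unitarize U hc
    (fun g => ⟨u (star (UB z t i0 v g)), hinv1 g, hinv2 g, hn1 _ (Unitary.star_mem (hUm g))⟩)
    (fun h => ⟨Equiv.prodCongr
        (Equiv.ofBijective (rmul h.1.1 h.1.2)
          ((Finite.injective_iff_bijective).mp (rmul_inj h.1.1 h.1.2)))
        (Equiv.ofBijective (rmul h.2.1 h.2.2)
          ((Finite.injective_iff_bijective).mp (rmul_inj h.2.1 h.2.2))), fun g => by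
        change u (UB z t i0 v _) = u (UB z t i0 v g) * u (UB z t i0 v h)
        rw [← hu.mul, D.UB_mul]
        rfl⟩)
  have hmulv : ∀ a b ξ, u (a * b) ξ = u a (u b ξ) := by
    intro a b ξ
    rw [hu.mul]
    rfl
  refine ⟨S, S', i1, i2, ?_, hS, ?_, ?_⟩
  · intro b
    refine norm_S_conj hS i1 (u b) (by positivity) fun g ξ => ?_
    have e : u (UB z t i0 v g) (u b ξ) =
        u (UB z t i0 v g * b * star (UB z t i0 v g)) (u (UB z t i0 v g) ξ) := by
      rw [← hmulv, ← hmulv, mul_assoc, mul_assoc, (Unitary.mem_iff.mp (hUm g)).1, mul_one]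
    change ‖u (UB z t i0 v g) (u b ξ)‖ ≤ c * ‖b‖ * ‖u (UB z t i0 v g) ξ‖
    rw [e]
    refine ((u _).le_opNorm _).trans (mul_le_mul_of_nonneg_right ?_ (norm_nonneg _))
    refine (hb _).trans (mul_le_mul_of_nonneg_left ?_ hc)
    have h1 := H294R2.Kad2.norm_le_one_of_unitary (hUm g)
    have h2 := H294R2.Kad2.norm_le_one_of_unitary (Unitary.star_mem (hUm g))
    calc ‖UB z t i0 v g * b * star (UB z t i0 v g)‖
        ≤ ‖UB z t i0 v g‖ * ‖b‖ * ‖star (UB z t i0 v g)‖ :=
          (norm_mul_le _ _).trans (mul_le_mul_of_nonneg_right (norm_mul_le _ _) (norm_nonneg _))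
      _ ≤ 1 * ‖b‖ * 1 := by gcongr
      _ = ‖b‖ := by ring
  all_goals
    have hP : ∀ g, star (S * u (UB z t i0 v g) * S') = S * u (star (UB z t i0 v g)) * S' :=
      fun g => hstar g _ (hinv2 g)
    have hadd : ∀ x y : B, star (S * u x * S') = S * u (star x) * S' →
        star (S * u y * S') = S * u (star y) * S' →
        star (S * u (x + y) * S') = S * u (star (x + y)) * S' := by
      intro x y hx hy
      rw [map_add, mul_add, add_mul, star_add, hx, hy, star_add, map_add, mul_add, add_mul]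
    have hsmul : ∀ (a : ℂ) (x : B), star (S * u x * S') = S * u (star x) * S' →
        star (S * u (a • x) * S') = S * u (star (a • x)) * S' := by
      intro a x hx
      rw [map_smul, mul_smul_comm, smul_mul_assoc, star_smul, hx, star_smul, map_smul,
        mul_smul_comm, smul_mul_assoc]
    have hW : ∀ a b, star (S * u (wf t v a * star (wf t v b)) * S') =
        S * u (star (wf t v a * star (wf t v b))) * S' := by
      intro a b
      have e : wf t v a * star (wf t v b) = (1 / 2 : ℂ) • (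
          UB z t i0 v ((Equiv.swap a b, fun _ => 1), (1, fun _ => 1)) + (-1 : ℂ) •
          UB z t i0 v ((Equiv.swap a b, Function.update (fun _ => 1) a (-1)), (1, fun _ => 1))) := by
        rw [← mu_single, hsingle, mu_smul, mu_add, mu_smul]
        unfold UB
        congr 1
        rw [neg_one_smul, neg_one_smul]
        abel
      rw [e]
      exact hsmul _ _ (hadd _ _ (hP _) (hsmul _ _ (hP _)))
    have hY : ∀ a b, star (S * u (yf t i0 v a * star (yf t i0 v b)) * S') =
        S * u (star (yf t i0 v a * star (yf t i0 v b))) * S' := by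
      intro a b
      have e : yf t i0 v a * star (yf t i0 v b) = (1 / 2 : ℂ) • (
          UB z t i0 v ((1, fun _ => 1), (Equiv.swap a b, fun _ => 1)) + (-1 : ℂ) •
          UB z t i0 v ((1, fun _ => 1), (Equiv.swap a b, Function.update (fun _ => 1) a (-1)))) := by
        rw [← mu_single, hsingle, mu_smul, mu_add, mu_smul]
        unfold UB
        congr 1
        rw [neg_one_smul, neg_one_smul]
        abel
      rw [e]
      exact hsmul _ _ (hadd _ _ (hP _) (hsmul _ _ (hP _)))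
  · intro i
    have e : t i = wf t v (some i) * star (wf t v (some i0)) +
        yf t i0 v i * star (yf t i0 v i0) := by
      simp only [wf, yf]
      rw [star_mul, star_mul, D.qy.1, D.fp.1]
      have e3 : t i * v * (star v * t i0) +
          t i * (t i0 - v * star v) * ((t i0 - v * star v) * t i0) =
          t i * (v * star v + (t i0 - v * star v) * (t i0 - v * star v)) * t i0 := by
        noncomm_ring
      rw [e3, D.qy.2]
      have e4 : v * star v + (t i0 - v * star v) = t i0 := by abel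
      rw [e4, D.tf, D.tf]
    conv_lhs => rw [e]
    conv_rhs => rw [e]
    exact hadd _ _ (hW _ _) (hY _ _)
  · have e : v = wf t v (some i0) * star (wf t v none) := by
      simp only [wf]
      rw [D.rp.1, D.fv, D.vr]
    conv_lhs => rw [e]
    conv_rhs => rw [e]
    exact hW _ _

end a

section b

variable {B : Type} [CStarAlgebra B] [PartialOrder B] [StarOrderedRing B]
variable {H : Type} [NormedAddCommGroup H] [InnerProductSpace ℂ H] [CompleteSpace H]

omit [CompleteSpace H] in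
theorem norm_S_le {G : Type} [Fintype G] [Nonempty G] {U : G → (H →L[ℂ] H)} {S : H →L[ℂ] H}
    (hS : ∀ ξ, ‖S ξ‖ ^ 2 = (Fintype.card G : ℝ)⁻¹ * ∑ g, ‖U g ξ‖ ^ 2)
    (y : H) {β : ℝ} (hβ : 0 ≤ β) (h : ∀ g, ‖U g y‖ ≤ β) : ‖S y‖ ≤ β := by
  refine le_of_sq_le_sq ?_ hβ
  rw [hS]
  have h1 : ∑ g, ‖U g y‖ ^ 2 ≤ ∑ _g : G, β ^ 2 :=
    Finset.sum_le_sum fun g _ => pow_le_pow_left₀ (norm_nonneg _) (h g) 2
  rw [Finset.sum_const, Finset.card_univ, nsmul_eq_mul] at h1
  have hcard : (0 : ℝ) < Fintype.card G := by exact_mod_cast Fintype.card_pos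
  calc (Fintype.card G : ℝ)⁻¹ * ∑ g, ‖U g y‖ ^ 2
      ≤ (Fintype.card G : ℝ)⁻¹ * ((Fintype.card G : ℝ) * β ^ 2) := by gcongr
    _ = β ^ 2 := by field_simp

theorem norm_star_S'_le {G : Type} [Fintype G] [Nonempty G] {U : G → (H →L[ℂ] H)}
    {S S' : H →L[ℂ] H} (i1 : S * S' = 1)
    (hS : ∀ ξ, ‖S ξ‖ ^ 2 = (Fintype.card G : ℝ)⁻¹ * ∑ g, ‖U g ξ‖ ^ 2)
    (V : G → (H →L[ℂ] H)) (hV : ∀ g, V g * U g = 1)
    (φ : H) {β : ℝ} (hβ : 0 ≤ β) (h : ∀ g, ‖star (V g) φ‖ ≤ β) : ‖star S' φ‖ ≤ β := by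
  set ψ := star S' φ with hψ
  have e1 : ⟪ψ, ψ⟫_ℂ = ⟪φ, S' ψ⟫_ℂ := by
    conv_lhs => rw [hψ, ContinuousLinearMap.star_eq_adjoint,
      ContinuousLinearMap.adjoint_inner_left]
    rfl
  have e2 : ∀ g, ‖⟪φ, S' ψ⟫_ℂ‖ ≤ β * ‖U g (S' ψ)‖ := by
    intro g
    have e3 : ⟪φ, S' ψ⟫_ℂ = ⟪star (V g) φ, U g (S' ψ)⟫_ℂ := by
      rw [ContinuousLinearMap.star_eq_adjoint, ContinuousLinearMap.adjoint_inner_left]
      have : V g (U g (S' ψ)) = (V g * U g) (S' ψ) := rfl
      rw [this, hV]
      rfl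
    rw [e3]
    exact (norm_inner_le_norm _ _).trans (mul_le_mul_of_nonneg_right (h g) (norm_nonneg _))
  have e4 := norm_le_S hS (⟪φ, S' ψ⟫_ℂ) hβ (S' ψ) e2
  have e5 : S (S' ψ) = ψ := by
    have : (S * S') ψ = ψ := by rw [i1]; rfl
    exact this
  rw [e5, ← e1, inner_self_eq_norm_sq_to_K] at e4
  have e6 : ‖ψ‖ * ‖ψ‖ ≤ β * ‖ψ‖ := by
    have : ‖((‖ψ‖ : ℂ)) ^ 2‖ = ‖ψ‖ * ‖ψ‖ := by
      rw [norm_pow, Complex.norm_real, norm_norm, sq]
    rw [← this]
    exact e4
  rcases (norm_nonneg ψ).eq_or_lt with h0 | h0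
  · rw [← h0]; exact hβ
  · exact le_of_mul_le_mul_right e6 h0

end b

/-- Similarity making the homomorphism preserve adjoints on matrix units, without loss. -/
theorem prove_simbi : S_simbi := by
  intro B _ _ _ n z t i0 v D H _ _ _ u hu c hc hb
  obtain ⟨S, S', i1, i2, h3, hS, h5, h6⟩ := sim2 D u hu hc hb
  have hUm := D.UB_unitary
  have hmulv : ∀ a b ξ, u (a * b) ξ = u a (u b ξ) := by
    intro a b ξ
    rw [hu.mul]
    rfl
  have hUn : ∀ (g : GI n) (x : B), ‖UB z t i0 v g * x‖ ≤ ‖x‖ := by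
    intro g x
    refine (norm_mul_le _ _).trans ?_
    have h1 := H294R2.Kad2.norm_le_one_of_unitary (hUm g)
    calc ‖UB z t i0 v g‖ * ‖x‖ ≤ 1 * ‖x‖ := by gcongr
      _ = ‖x‖ := one_mul _
  have i2v : ∀ ξ, S' (S ξ) = ξ := by
    intro ξ
    have : (S' * S) ξ = ξ := by rw [i2]; rfl
    exact this
  have i3 : star S * star S' = 1 := by rw [← star_mul, i2, star_one]
  have i3v : ∀ ξ, star S (star S' ξ) = ξ := by
    intro ξ
    have : (star S * star S') ξ = ξ := by rw [i3]; rfl
    exact this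
  have hvm : IsHom (vmap u) := hu.vmap
  refine ⟨cjm S S' u, cjm_hom i1 i2 hu, h3, h5, h6, ?_⟩
  intro m C hC hBi X ζ η a b ha hb' hζ hη
  set ζ' : HH (Fin m) H := WithLp.toLp 2 fun i => S (ζ i) with hζ'
  set η' : HH (Fin m) H := WithLp.toLp 2 fun i => star S' (η i) with hη'
  have k1 : ∀ i x, ‖cjm S S' u x (ζ' i)‖ ≤ a i * ‖x‖ := by
    intro i x
    have e1 : cjm S S' u x (ζ' i) = S (u x (ζ i)) := by
      change S (u x (S' (S (ζ i)))) = _
      rw [i2v]
    rw [e1]
    refine norm_S_le (U := fun g => u (UB z t i0 v g)) hS _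
      (mul_nonneg (ha i) (norm_nonneg x)) fun g => ?_
    rw [← hmulv]
    exact (hζ i _).trans (mul_le_mul_of_nonneg_left (hUn g x) (ha i))
  have k2 : ∀ i x, ‖vmap (cjm S S' u) x (η' i)‖ ≤ b i * ‖x‖ := by
    intro i x
    have e1 : vmap (cjm S S' u) x (η' i) = star S' (vmap u x (η i)) := by
      have e2 : vmap (cjm S S' u) x = star S' * (vmap u x * star S) := by
        change star (S * u (star x) * S') = star S' * (star (u (star x)) * star S)
        rw [star_mul, star_mul]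
      rw [e2]
      change star S' (vmap u x (star S (star S' (η i)))) = _
      rw [i3v]
    rw [e1]
    refine norm_star_S'_le (U := fun g => u (UB z t i0 v g)) i1 hS
      (fun g => u (star (UB z t i0 v g))) (fun g => ?_) _
      (mul_nonneg (hb' i) (norm_nonneg x)) fun g => ?_
    · rw [← hu.mul, (Unitary.mem_iff.mp (hUm g)).1, hu.one]
    · have e3 : star (u (star (UB z t i0 v g))) (vmap u x (η i)) =
          vmap u (UB z t i0 v g * x) (η i) := by
        rw [hvm.mul]
        rfl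
      change ‖star (u (star (UB z t i0 v g))) (vmap u x (η i))‖ ≤ _
      rw [e3]
      exact (hη i _).trans (mul_le_mul_of_nonneg_left (hUn g x) (hb' i))
  have k3 : ⟪amp u (Fin m) X ζ, η⟫_ℂ = ⟪amp (cjm S S' u) (Fin m) X ζ', η'⟫_ℂ := by
    rw [PiLp.inner_apply, PiLp.inner_apply]
    refine Finset.sum_congr rfl fun i _ => ?_
    rw [amp_apply, amp_apply]
    change _ = ⟪∑ j, S (u (X i j) (S' (S (ζ j)))), star S' (η i)⟫_ℂ
    simp only [i2v]
    rw [← map_sum, ContinuousLinearMap.star_eq_adjoint,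
      ContinuousLinearMap.adjoint_inner_right, i2v]
  rw [k3]
  exact hBi X ζ' η' a b ha hb' k1 k2

end Pool.Agent.Y363.D3
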